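import Pool.Agent.V5helper75.BB.Stm3
import Pool.Agent.V5helper91.BB.FLAT

/-!
# Project BB: the obstructions from the subgroups of right-angled Artin groups
-/

set_option autoImplicit false
set_option linter.unusedSectionVars false

noncomputable section

namespace Pool.Agent.V5helper75.BB

open Finset Pool.Agent.W907.SG Pool.Agent.W907.SM Pool.Agent.R782.Bal Pool.Agent.V5helper75.VO Pool.Agent.R703.MO
open Pool.Agent.V5helper75.BK Pool.Agent.V5helper74.LR
open Pool.Agent.V5helper91.BB (flat_comm flat_comm_lk flat_insert raag_tf)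

/-- translations -/
def trh : Multiplicative ℤ →* Equiv.Perm ℤ where
  toFun n := tr (Multiplicative.toAdd n)
  map_one' := tr_zero
  map_mul' _ _ := (tr_mul _ _).symm

theorem t_OBS3 : S_OBS3 := by
  classical
  intro V _ _ G F _ μ S A g i hμ hS hA hk h0
  have h1 : ¬ Ex2 (G.induce A) Set.univ i := fun h2 => h0 (homZero_of_ex2 (Pool.Agent.V5helper75.LR.ex2_ind h2))
  have h2 : ¬ Obs (oct (G.induce A)) (2 * i) := fun h3 => h1 (ex2_of_obs h3)
  have hk' : ∀ w : A, ∃ (a : ℤ) (s : Raag G) (k : F), s ∈ Flat G S ∧ a ≠ 0 ∧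
      μ k = g * (art G w ^ a * s) * g⁻¹ := by
    intro w
    obtain ⟨a, s, hs, ha, k, hk⟩ := hk w w.2
    exact ⟨a, s, k, hs, ha, hk⟩
  choose a s k hs ha hkk using hk'
  obtain ⟨t, ht⟩ : ∃ t : A ×ₗ Bool → F, ∀ p, t p = if (ofLex p).2 = true then k (ofLex p).1 else (k (ofLex p).1)⁻¹ :=
    ⟨_, fun p => rfl⟩
  refine ⟨A ×ₗ Bool, inferInstance, oct (G.induce A), t, h2, ?_, ?_⟩
  · intro p q hpq
    have hadj : G.Adj (ofLex p).1.1 (ofLex q).1.1 := hpq
    have hc : Commute (k (ofLex p).1) (k (ofLex q).1) := by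
      apply hμ
      rw [map_mul, map_mul, hkk, hkk]
      have c1 : Commute (art G (ofLex p).1.1) (art G (ofLex q).1.1) := art_comm hadj
      have c2 : Commute (art G (ofLex p).1.1) (s (ofLex q).1) :=
        flat_comm_lk (hs _) (hA _ (ofLex p).1.2)
      have c3 : Commute (art G (ofLex q).1.1) (s (ofLex p).1) :=
        flat_comm_lk (hs _) (hA _ (ofLex q).1.2)
      have c4 : Commute (s (ofLex p).1) (s (ofLex q).1) := flat_comm hS (hs _) (hs _)
      have c5 : Commute (art G (ofLex p).1.1 ^ a (ofLex p).1 * s (ofLex p).1)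
          (art G (ofLex q).1.1 ^ a (ofLex q).1 * s (ofLex q).1) :=
        ((c1.zpow_zpow _ _).mul_right (c2.zpow_left _)).mul_left ((c3.symm.zpow_right _).mul_right c4)
      have c6 : ∀ x y : Raag G, g * x * g⁻¹ * (g * y * g⁻¹) = g * (x * y) * g⁻¹ := fun x y => by group
      rw [c6, c6, c5.eq]
    rw [ht, ht]
    split_ifs
    · exact hc
    · exact hc.inv_right
    · exact hc.inv_left
    · exact hc.inv_inv
  · intro U U' hU hU' hd u hu
    obtain ⟨⟨w0, δ⟩, rfl⟩ := toLex.surjective u
    have hw0 : w0.1 ∉ S := fun h => (G.ne_of_adj (hA _ w0.2 _ h)) rfl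
    obtain ⟨c, hc⟩ : ∃ c : ℤ, c = Int.sign (a w0) * (if δ = true then 1 else -1) := ⟨_, rfl⟩
    obtain ⟨χ, hχ⟩ := raag_hom (G := G) (Γ := Multiplicative ℤ)
      (fun v => if v = w0.1 then Multiplicative.ofAdd c else 1) fun _ _ _ => mul_comm _ _
    have hχS : ∀ x ∈ Flat G S, χ x = 1 := by
      intro x hx
      have h3 : Flat G S ≤ χ.ker := by
        unfold Flat
        rw [Subgroup.closure_le]
        rintro _ ⟨v, hv, rfl⟩
        show χ (art G v) = 1
        rw [hχ, if_neg]
        rintro rfl
        exact hw0 hv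
      exact h3 hx
    have hχk : ∀ w : A, χ (μ (k w)) = (if w = w0 then Multiplicative.ofAdd (a w0 * c) else 1) := by
      intro w
      rw [hkk, map_mul, map_mul, map_inv, mul_inv_cancel_comm, map_mul, hχS _ (hs w), mul_one, map_zpow, hχ]
      by_cases h : w = w0
      · subst h
        rw [if_pos rfl, if_pos rfl, ← ofAdd_zsmul, smul_eq_mul]
      · rw [if_neg h, if_neg fun e => h (Subtype.ext e), one_zpow]
    obtain ⟨ε, hε⟩ : ∃ ε : A ×ₗ Bool → ℤ, ∀ p, ε p = Multiplicative.toAdd (χ (μ (t p))) := ⟨_, fun p => rfl⟩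
    have hpos : 1 ≤ (if δ = true then a w0 * c else -(a w0 * c)) := by
      have h3 : 1 ≤ |a w0| := Int.one_le_abs (ha w0)
      rw [hc]
      split_ifs with hδ
      · rw [mul_one, Int.mul_sign_self, Int.natCast_natAbs]
        exact h3
      · rw [mul_neg_one, mul_neg, neg_neg, Int.mul_sign_self, Int.natCast_natAbs]
        exact h3
    have hεv : ∀ (w : A) (γ : Bool), ε (toLex (w, γ)) =
        if w = w0 then (if γ = true then a w0 * c else -(a w0 * c)) else 0 := by
      intro w γ
      rw [hε, ht]
      show Multiplicative.toAdd (χ (μ (if γ = true then k w else (k w)⁻¹))) = _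
      cases γ
      · rw [if_neg (by simp), map_inv, map_inv, toAdd_inv, hχk]
        by_cases h : w = w0
        · simp [h, mul_comm c]
        · simp [h]
      · rw [if_pos rfl, hχk]
        by_cases h : w = w0
        · simp [h, mul_comm c]
        · simp [h]
    refine ⟨(trh.comp χ).comp μ, ε, fun p _ => ?_, ?_, fun p hp => ?_, fun p hp => ?_⟩
    · rw [hε]
      rfl
    · rw [hεv, if_pos rfl]
      exact hpos
    · obtain ⟨⟨w, γ⟩, rfl⟩ := toLex.surjective p
      rw [hεv]
      by_cases h : w = w0
      · subst h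
        have hγ : γ = δ := by
          by_contra h3
          have h4 := hU (mem_coe.2 hp) (mem_coe.2 hu) fun e => h3 (congrArg (fun q => (ofLex q).2) e)
          exact (G.ne_of_adj (show G.Adj w.1 w.1 from h4)) rfl
        subst hγ
        rw [if_pos rfl]
        exact zero_le_one.trans hpos
      · rw [if_neg h]
    · obtain ⟨⟨w, γ⟩, rfl⟩ := toLex.surjective p
      rw [hεv]
      by_cases h : w = w0
      · subst h
        have hγ : γ = !δ := by
          by_contra h3
          have h4 : γ = δ := by cases γ <;> cases δ <;> simp_all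
          subst h4
          exact disjoint_left.1 hd hu hp
        subst hγ
        rw [if_pos rfl]
        cases δ
        · simp only [Bool.not_false, if_true] at hpos ⊢
          simp at hpos
          linarith
        · simp only [Bool.not_true] at hpos ⊢
          simp at hpos ⊢
          linarith
      · rw [if_neg h]

end Pool.Agent.V5helper75.BB
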