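import Pool.Agent.V5helper75.BB.Stm

/-!
# Project BB, second part: arbitrary subgroups of right-angled Artin groups
-/

set_option autoImplicit false
set_option linter.unusedSectionVars false

noncomputable section

namespace Pool.Agent.V5helper75.BB

open Finset Pool.Agent.W907.SG Pool.Agent.W461.SGN Pool.Agent.V5helper75.VO Pool.Agent.N496.CV Pool.Agent.V5helper74.LR
open Pool.Agent.V5helper75.BK (Raag art Fl gen)
open Pool.Agent.R703.MO (HomZero)

/-- (GEN, 150 lines; only needs `Pool.Agent.V5helper74.LR.Alg`, `Base`) General exactness. Prove for all `C`: if `Dis G C N` and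
`HomZero G {w | w ∈ C ∧ ∀ v ∈ S, G.Adj v w} i` for all the cliques `S ⊆ C` with `cup N S ≠ ⊤`, then `Ex G C N i`, by induction on the number `k` of the `v ∈ C` with
`N v ≠ ⊤` (for all `M`, `C`, `N`). `k = 0`: if `cup N ∅ = ⊥ = ⊤` in `M` then `M` is trivial; otherwise `base` with `S = ∅`. Step: `u ∈ C` with `N u ≠ ⊤`. Let
`N' = Function.update N u ⊤` (`Dis.update`; for `u ∉ S` `cup N' S = cup N S`, for `u ∈ S` it is `⊤`): `Ex G C N' i` by induction. And `quo N u` on
`Lk G (C.erase u) u` (`dis_quo`, `cup_quo`; for a clique `S` in the link `cup (quo N u) S ≠ ⊤` implies `cup N (insert u S) ≠ ⊤`, the common neighbours of `S` in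
the link are those of `insert u S` in `C`): `Ex G (Lk G (C.erase u) u) (quo N u) i` by induction. Conclusion (as in `S_ALG`, one vertex): let `c` be a cycle for `N`, `bd ℝ e = c`
with `e` a chain for `N'`. `lk u e` is a chain of the link for `N`, `bd ℝ (lk u e) = - lk u c` has values in `N u`, so modulo `N u` `lk u e = bd ℝ f'`, `f'` a chain for
`quo N u`, which lifts to a chain `f` of the link for `N` (`Dis` with `σ = T`, `ρ = {u}`; see `quo_step`). `e + bd ℝ (cone u f)` is a chain for `N` with boundary `c`. -/
def S_GEN : Prop := ∀ (V : Type) [Fintype V] [LinearOrder V] (G : SimpleGraph V) (M : Type) [AddCommGroup M]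
  [Module ℝ M] (N : V → Submodule ℝ M) (i : ℕ), Dis G univ N →
  (∀ S : Finset V, G.IsClique (S : Set V) → cup N S ≠ ⊤ → HomZero G {w | ∀ v ∈ S, G.Adj v w} i) → Ex G univ N i

/-- the group `A_S` generated by the generators in `S` -/
def Flat {V : Type} (G : SimpleGraph V) (S : Finset V) : Subgroup (Raag G) := Subgroup.closure (art G '' (S : Set V))

/-- (OBS2, generalizes `S_OBS`: the vertex `v` is replaced by a clique `S`, `art v ^ b` by an element `s` of `A_S`) The group `A_S` is commutative
(`S` is a clique) and commutes with `art G w` for `w` adjacent to all of `S` (`Subgroup.closure_induction`); the homomorphism which sends `art w` to `tr 1` and the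
other generators to `1` kills `A_S`, as `w ∉ S`. -/
def S_OBS2 : Prop := ∀ (V : Type) [Fintype V] [LinearOrder V] (G : SimpleGraph V) (F : Type) [Group F] (μ : F →* Raag G)
  (S : Finset V) (g : Raag G) (i : ℕ), Function.Injective μ → G.IsClique (S : Set V) →
  (∀ w, (∀ v ∈ S, G.Adj v w) → ∃ (a : ℤ), ∃ s ∈ Flat G S, a ≠ 0 ∧ g * (art G w ^ a * s) * g⁻¹ ∈ μ.range) →
  ¬ HomZero G {w | ∀ v ∈ S, G.Adj v w} i → Fl F i

end Pool.Agent.V5helper75.BB
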