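import Pool.Agent.V5helper75.BB.Stm2

/-!
# Project BB, third part: obstructions from arbitrary subsets of the links
-/

set_option autoImplicit false
set_option linter.unusedSectionVars false

noncomputable section

namespace Pool.Agent.V5helper75.BB

open Finset Pool.Agent.W907.SG Pool.Agent.W461.SGN Pool.Agent.V5helper75.VO Pool.Agent.N496.CV Pool.Agent.V5helper74.LR
open Pool.Agent.V5helper75.BK (Raag art Fl gen)
open Pool.Agent.R703.MO (HomZero)

/-- (OBS3) `S_OBS2` with an arbitrary subset `A` of the link of `S`; the same proof. -/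
def S_OBS3 : Prop := ∀ (V : Type) [Fintype V] [LinearOrder V] (G : SimpleGraph V) (F : Type) [Group F] (μ : F →* Raag G)
  (S : Finset V) (A : Set V) (g : Raag G) (i : ℕ), Function.Injective μ → G.IsClique (S : Set V) →
  (∀ w ∈ A, ∀ v ∈ S, G.Adj v w) →
  (∀ w ∈ A, ∃ (a : ℤ), ∃ s ∈ Flat G S, a ≠ 0 ∧ g * (art G w ^ a * s) * g⁻¹ ∈ μ.range) →
  ¬ HomZero G A i → Fl F i

end Pool.Agent.V5helper75.BB
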