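import Pool.Agent.V5helper75.BB.Tors
import Pool.Agent.V5helper75.BB.Stm2
import Pool.Agent.V5helper75.BB.Stm3
import Pool.Agent.V5helper91.BB.FLAT

/-!
# Project BB: arbitrary subgroups of right-angled Artin groups
-/

set_option autoImplicit false
set_option linter.unusedSectionVars false

noncomputable section

namespace Pool.Agent.V5helper75.BB

open Finset Pool.Agent.W907.SG Pool.Agent.W461.SGN Pool.Agent.V5helper75.VO Pool.Agent.N496.CV Pool.Agent.V5helper74.LR
open Pool.Agent.N496.LT Pool.Agent.Helper655.VN Pool.Agent.RK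
open Pool.Agent.V5helper75.BK (Raag art Fl gen raag_hom art_comm fl_act)
open Pool.Agent.V5helper75.BR (map_fin comap_fin)
open Pool.Agent.R703.MO (HomZero)
open Pool.Agent.V5helper91.BB (flat_comm flat_comm_lk flat_insert raag_tf)

attribute [local instance] VN831.bcFunctor_additive VN831.viaAdd VN831.viaMod V7N.bcF_additive

section

variable {V : Type} [Fintype V] [LinearOrder V] {G : SimpleGraph V}

variable (G) in
/-- `K` meets `g A_S g⁻¹` nontrivially. -/
def Mt (K : Subgroup (Raag G)) (g : Raag G) (S : Finset V) : Prop := ∃ k ∈ Flat G S, k ≠ 1 ∧ g * k * g⁻¹ ∈ K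

variable (G) in
/-- the element `s_v t_v` -/
def tau (v : V) : W (oct G) := gen (oct G) (toLex (v, true)) * gen (oct G) (toLex (v, false))

theorem tau_mem {P : Finset V} {v : V} (hv : v ∈ P) : tau G v ∈ Dih G P :=
  Subgroup.mul_mem _ (Subgroup.subset_closure ⟨toLex (v, true), hv, rfl⟩)
    (Subgroup.subset_closure ⟨toLex (v, false), hv, rfl⟩)

theorem conj_zpow' {A : Type} [Group A] (x y : A) (n : ℤ) : (x * y * x⁻¹) ^ n = x * y ^ n * x⁻¹ := by
  have h := map_zpow (MulAut.conj x) y n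
  simp only [MulAut.conj_apply] at h
  exact h.symm

/-- the doubled elements -/
theorem conj_sq {E0 : Type} [Group E0] {f : Raag G →* E0} {p : W (oct G) →* E0} {x : W (oct G)} {g : Raag G}
    {ε : V → ℤˣ} (hx : ∀ v, p (x * tau G v * x⁻¹) = f (g * art G v ^ (2 * (ε v : ℤ)) * g⁻¹)) {S : Finset V}
    (hS : G.IsClique (S : Set V)) {k : Raag G} (hk : k ∈ Flat G S) :
    ∃ h ∈ Dih G S, p (x * h * x⁻¹) = f (g * (k * k) * g⁻¹) := by
  unfold Flat at hk
  induction hk using Subgroup.closure_induction with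
  | mem y hy =>
    obtain ⟨v, hv, rfl⟩ := hy
    refine ⟨tau G v ^ ((ε v : ℤ)), Subgroup.zpow_mem _ (tau_mem hv) _, ?_⟩
    rw [← conj_zpow', map_zpow, hx, ← map_zpow, conj_zpow', ← zpow_mul]
    have h1 : 2 * (ε v : ℤ) * (ε v : ℤ) = 2 := by
      rcases Int.units_eq_one_or (ε v) with h | h <;> rw [h] <;> simp
    rw [h1, zpow_two]
  | one => exact ⟨1, Subgroup.one_mem _, by simp⟩
  | mul a b ha hb iha ihb =>
    obtain ⟨h1, h1m, e1⟩ := iha
    obtain ⟨h2, h2m, e2⟩ := ihb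
    refine ⟨h1 * h2, Subgroup.mul_mem _ h1m h2m, ?_⟩
    have e3 : x * (h1 * h2) * x⁻¹ = (x * h1 * x⁻¹) * (x * h2 * x⁻¹) := by group
    rw [e3, map_mul, e1, e2, ← map_mul]
    congr 1
    have hc : Commute a b := flat_comm hS ha hb
    have e4 : (a * b) * (a * b) = (a * a) * (b * b) := by
      rw [mul_assoc, ← mul_assoc b a b, ← hc.eq, mul_assoc a b b, ← mul_assoc, ← mul_assoc]
    rw [e4]
    group
  | inv a _ iha =>
    obtain ⟨h1, h1m, e1⟩ := iha
    refine ⟨h1⁻¹, Subgroup.inv_mem _ h1m, ?_⟩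
    have e3 : x * h1⁻¹ * x⁻¹ = (x * h1 * x⁻¹)⁻¹ := by group
    rw [e3, map_inv, e1, ← map_inv]
    congr 1
    group

/-- the comparison of the flats -/
theorem conj_mem {E0 H : Type} [Group E0] [Group H] {f : Raag G →* E0} {p : W (oct G) →* E0} (hf : Function.Injective f)
    {b : H →* Raag G} {x : W (oct G)} {g : Raag G} {ε : V → ℤˣ}
    (hx : ∀ v, p (x * tau G v * x⁻¹) = f (g * art G v ^ (2 * (ε v : ℤ)) * g⁻¹)) {S : Finset V}
    (hS : G.IsClique (S : Set V)) (hm : Mt G b.range g S) :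
    ∃ h ∈ Dih G S, h ≠ 1 ∧ (∃ y : H, f (b y) = p (x * h * x⁻¹)) ∧ x * h * x⁻¹ ∈ (th (oct G)).ker := by
  obtain ⟨k, hk, hk1, hkb⟩ := hm
  obtain ⟨h0, hh0, h1⟩ := conj_sq hx hS hk
  have h1' : p (x * h0 * x⁻¹) = f ((g * k * g⁻¹) ^ 2) := by
    rw [h1, pow_two]
    congr 1
    group
  have h2 : x * (h0 * h0) * x⁻¹ = (x * h0 * x⁻¹) * (x * h0 * x⁻¹) := by group
  have h3 : p (x * (h0 * h0) * x⁻¹) = f ((g * k * g⁻¹) ^ 4) := by
    rw [h2, map_mul, h1', ← map_mul, ← pow_add]
  refine ⟨h0 * h0, Subgroup.mul_mem _ hh0 hh0, fun h => ?_, ?_, ?_⟩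
  · rw [h, mul_one, mul_inv_cancel, map_one] at h3
    have h4 : (g * k * g⁻¹) ^ 4 = 1 := hf (h3.symm.trans (map_one f).symm)
    have h5 := raag_tf G _ 4 (by norm_num) h4
    apply hk1
    have h6 : k = g⁻¹ * (g * k * g⁻¹) * g := by group
    rw [h6, h5]
    group
  · obtain ⟨y, hy⟩ := hkb
    exact ⟨y ^ 4, by rw [map_pow, hy, h3]⟩
  · rw [MonoidHom.mem_ker, h2, map_mul]
    funext q
    exact Int.units_mul_self _

/-- **Vanishing.** -/
theorem betti_gen (hGEN : S_GEN) (hTOP : S_TOP) (hDJ : S_DJ) {E : Type} [Group E] (H : Subgroup E)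
    (hH : H.FiniteIndex) (b : H →* Raag G) (hb : Function.Injective b) (n : ℕ)
    (h1 : ∀ S : Finset V, G.IsClique (S : Set V) → (∃ g, ¬ Mt G b.range g S) →
      HomZero G {w | ∀ v ∈ S, G.Adj v w} (n + 1)) : HasL2Betti E (n + 1) 0 := by
  classical
  obtain ⟨E0, _, f, p, hf, hp, hf1, hp1, hx⟩ := hDJ V G
  obtain ⟨c, hcd⟩ : ∃ c : H →* E0, c = f.comp b := ⟨_, rfl⟩
  have hc : Function.Injective c := by rw [hcd]; exact hf.comp hb
  have hcf : ∀ y, c y = f (b y) := fun y => by rw [hcd]; rfl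
  obtain ⟨K, hKd⟩ : ∃ K : Subgroup (W (oct G)), K = (c.range.comap p) ⊓ (th (oct G)).ker := ⟨_, rfl⟩
  have hKm : ∀ x, x ∈ K ↔ p x ∈ c.range ∧ x ∈ (th (oct G)).ker := fun x => by rw [hKd]; exact Iff.rfl
  have hK : K ≤ (th (oct G)).ker := fun x hx => ((hKm x).1 hx).2
  -- the embedding
  let e : H ≃* c.range := MonoidHom.ofInjective hc
  let κ0 : K →* c.range :=
    { toFun := fun k => ⟨p k.1, ((hKm k.1).1 k.2).1⟩
      map_one' := Subtype.ext (map_one p)
      map_mul' := fun x y => Subtype.ext (map_mul p _ _) }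
  have hκ0 : Function.Injective κ0 := fun x y hxy => Subtype.ext (hp (congrArg Subtype.val hxy))
  let κ : K →* E := (H.subtype.comp e.symm.toMonoidHom).comp κ0
  have hκ : Function.Injective κ := (H.subtype_injective.comp e.symm.injective).comp hκ0
  have hfi : κ.range.FiniteIndex := by
    let N : Subgroup E0 := ((th (oct G)).ker).map p
    have hN : N.FiniteIndex := map_fin p hp hp1 _ inferInstance
    have hP : (N.comap c).FiniteIndex := comap_fin _ _ hN
    have hF : ((N.comap c).map H.subtype).FiniteIndex :=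
      map_fin H.subtype H.subtype_injective (by rw [Subgroup.range_subtype]; exact hH) _ hP
    refine Subgroup.finiteIndex_of_le (H := (N.comap c).map H.subtype) ?_
    rintro _ ⟨y, hy, rfl⟩
    obtain ⟨z, hz, hzy⟩ := hy
    have hzK : z ∈ K := (hKm z).2 ⟨⟨y, hzy.symm⟩, hz⟩
    refine ⟨⟨z, hzK⟩, ?_⟩
    show H.subtype (e.symm (κ0 ⟨z, hzK⟩)) = H.subtype y
    congr 1
    apply e.injective
    rw [MulEquiv.apply_symm_apply]
    exact Subtype.ext hzy
  refine Pool.Agent.V5helper75.BR.up κ hκ hfi (tors_bc G K hK n fun U _ _ _ u hRg => ?_)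
  refine hGEN V G (MM K u) (NN sp) (n + 1) (dis sp_inv (sp_reg hRg)) fun S hS hcup => h1 S hS ?_
  by_contra hcon
  push Not at hcon
  refine hcup (hTOP V G U K u hRg S fun x => ?_)
  obtain ⟨g, ε, hg⟩ := hx x
  obtain ⟨h, h3, h4, ⟨y, hy⟩, h5⟩ := conj_mem hf hg hS (hcon g)
  exact ⟨h, h3, h4, (hKm _).2 ⟨⟨y, (hcf y).trans hy⟩, h5⟩⟩

/-- powers -/
theorem flat_pow {S : Finset V} {w : V} (hw : ∀ v ∈ S, G.Adj v w) {a : ℤ} {s : Raag G} (hs : s ∈ Flat G S) (m : ℕ) :
    (art G w ^ a * s) ^ m = art G w ^ (a * m) * s ^ m := by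
  have hc : Commute (art G w) s := flat_comm_lk hs hw
  rw [(hc.zpow_left a).mul_pow, ← zpow_natCast (art G w ^ a), ← zpow_mul]

/-- **Proper actions.** -/
theorem act_gen (hOBS : S_OBS3) {E : Type} [Group E] (H : Subgroup E) (K K' : Subgroup (Raag G)) (hle : K' ≤ K)
    (hfi : (K'.subgroupOf K).FiniteIndex) (e : H ≃* K')
    {X : Type} [TopologicalSpace X] [MulAction E X] [ContinuousConstSMul E X]
    [ProperlyDiscontinuousSMul E X] {n : ℕ} (ex : X × X ≃ₜ (Fin (2 * n) → ℝ)) {i : ℕ} (hi : n < 2 * i)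
    {S : Finset V} (hS : G.IsClique (S : Set V)) {g : Raag G} {B : Set V} (hB : ∀ w ∈ B, ∀ v ∈ S, G.Adj v w)
    (h2 : ∀ w ∈ B, ∃ k ∈ Flat G (insert w S), k ∉ Flat G S ∧ g * k * g⁻¹ ∈ K) : HomZero G B i := by
  by_contra h4
  have hr : (K'.subtype.comp e.toMonoidHom).range = K' := by
    rw [MonoidHom.range_comp, MonoidHom.range_eq_top.2 e.surjective, ← MonoidHom.range_eq_map, K'.range_subtype]
  have h5 : Fl H i := hOBS V G H (K'.subtype.comp e.toMonoidHom) S B g i (K'.subtype_injective.comp e.injective) hS hB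
    (fun w hw => by
      have hcl : G.IsClique ((insert w S : Finset V) : Set V) := by
        rw [coe_insert]
        exact hS.insert fun v hv _ => (hB w hw v hv).symm
      obtain ⟨k, hk, hk1, hkb⟩ := h2 w hw
      obtain ⟨a, s, hs, rfl⟩ := flat_insert hcl hk
      have ha : a ≠ 0 := by
        rintro rfl
        rw [zpow_zero, one_mul] at hk1
        exact hk1 hs
      obtain ⟨m, hm0, _, hm⟩ := Subgroup.exists_pow_mem_of_index_ne_zero hfi.index_ne_zero
        (⟨g * (art G w ^ a * s) * g⁻¹, hkb⟩ : K)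
      refine ⟨a * m, s ^ m, Subgroup.pow_mem _ hs m, mul_ne_zero ha (by exact_mod_cast hm0.ne'), ?_⟩
      rw [hr, ← flat_pow (hB w hw) hs m]
      have h6 : g * (art G w ^ a * s) ^ m * g⁻¹ = (g * (art G w ^ a * s) * g⁻¹) ^ m := by
        have h7 := map_pow (MulAut.conj g) (art G w ^ a * s) m
        simp only [MulAut.conj_apply] at h7
        exact h7
      rw [h6]
      exact hm) h4
  let _ : MulAction H X := MulAction.compHom X H.subtype
  have a1 : ContinuousConstSMul H X := ⟨fun k => continuous_const_smul (H.subtype k)⟩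
  have a2 : ProperlyDiscontinuousSMul H X := by
    refine ⟨fun {A B} hA hB => ?_⟩
    have h := ProperlyDiscontinuousSMul.finite_disjoint_inter_image (Γ := E) hA hB
    exact h.preimage (f := H.subtype) H.subtype_injective.injOn
  have h6 := fl_act h5 ex
  omega

/-! ### Characters -/

theorem chi_flat {χ : Raag G →* Multiplicative ℤ} {S : Finset V} (h : ∀ v ∈ S, χ (art G v) = 1) {k : Raag G}
    (hk : k ∈ Flat G S) : χ k = 1 := by
  have h1 : Flat G S ≤ χ.ker := by
    unfold Flat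
    rw [Subgroup.closure_le]
    rintro _ ⟨v, hv, rfl⟩
    exact h v hv
  exact h1 hk

theorem exists_chi (w : V) : ∃ χ : Raag G →* Multiplicative ℤ, χ (art G w) = Multiplicative.ofAdd 1 ∧
    ∀ v, v ≠ w → χ (art G v) = 1 := by
  obtain ⟨χ, hχ⟩ := raag_hom (G := G) (Γ := Multiplicative ℤ) (fun u => if u = w then Multiplicative.ofAdd 1 else 1)
    fun _ _ _ => mul_comm _ _
  exact ⟨χ, by rw [hχ, if_pos rfl], fun v hv => by rw [hχ, if_neg hv]⟩

/-- elements which are not in `A_S` -/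
theorem notMem_flat {S : Finset V} {w : V} (hw : w ∉ S) {a : ℤ} (ha : a ≠ 0) {s : Raag G} (hs : s ∈ Flat G S) :
    art G w ^ a * s ∉ Flat G S := by
  intro h
  obtain ⟨χ, h1, h2⟩ := exists_chi (G := G) w
  have h3 := chi_flat (χ := χ) (fun v hv => h2 v fun e => hw (e ▸ hv)) h
  rw [map_mul, chi_flat (χ := χ) (fun v hv => h2 v fun e => hw (e ▸ hv)) hs, mul_one, map_zpow, h1] at h3
  apply ha
  have h4 := congrArg Multiplicative.toAdd h3
  simpa using h4

end

end Pool.Agent.V5helper75.BB
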