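import Pool.Agent.V5helper74.LR.Fin

/-!
# Project BB (MP_ea75ba_gt): Bestvina-Brady groups and their relatives

`G` is a finite graph, `L` its flag complex, `K` a subgroup of the right-angled Artin group of `G` which meets all the
conjugates of the flats `⟨v, w⟩`, `v`, `w` adjacent, nontrivially (for example the kernel of a homomorphism to `ℤ`).
Theorem: if the reduced real homology of `L` vanishes and a group `E` commensurable with `K` acts properly
discontinuously on a contractible `n`-manifold, then `b_i(E) = 0` for all `i > n / 2`.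
-/

set_option autoImplicit false
set_option linter.unusedSectionVars false

noncomputable section

namespace Pool.Agent.V5helper75.BB

open Finset Pool.Agent.W907.SG Pool.Agent.W461.SGN Pool.Agent.V5helper75.VO Pool.Agent.N496.CV Pool.Agent.V5helper74.LR
open Pool.Agent.V5helper75.BK (Raag art Fl gen)
open Pool.Agent.R703.MO (HomZero)

/-- (ALG, 150 lines; only needs `Pool.Agent.V5helper74.LR.Alg`, `Base`) Exactness. Let `c` be a cycle (`Ch G univ N i c`, `bd ℝ c = 0`).
(1) For a clique `insert v T`, `v ∉ T`: `cap N T ⊔ N v = ⊤` (`Dis` with `σ = T`, `ρ = {v}`; `N w ⊔ N v = ⊤` for `w ∈ T`).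
(2) `base` (Base.lean) with `HomZero G univ i` and `M`: `c = bd ℝ e` with `e` supported on cliques with `i + 1` elements, values in `M`.
(3) For each `v` with `N v ≠ ⊤`: `lk v e` (supported on the cliques with `i` elements in the link `Lk G univ v`) satisfies `bd ℝ (lk v e) = - lk v c`
(from `decomp`, `bd_cone`, `off_bd`, `off_lk`, as in `split_zero`), which is in `N v`; so modulo `N v` it is a cycle, and `base` for `M ⧸ N v` gives `f'` with
`bd ℝ f' = mkQ ∘ lk v e`, `f'` supported on the cliques with `i + 1` elements in the link. By (1) lift `f'` to `f v` with the same support and `f v T ∈ cap N T`.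
(4) `e' = e + ∑ v with N v ≠ ⊤, bd ℝ (cone v (f v))` works: `bd ℝ e' = c` (`bd` of `bd` is zero: `Pool.Agent.W907.SG`, see how `bd_bd` is used in `Alg`), and
`e' T ∈ N w` for `w ∈ T`: `bd ℝ (cone v (f v)) = f v - cone v (bd ℝ (f v))` by `bd_cone`; at `T ∌ v` the value is `f v T ∈ cap N T`; at `T ∋ v` the value is
`- sg v (T.erase v) • bd ℝ (f v) (T.erase v)`, in `N w` for `w ∈ T.erase v`, and congruent to `- cone v (lk v e) T = - e T` modulo `N v`. -/
def S_ALG : Prop := ∀ (V : Type) [Fintype V] [LinearOrder V] (G : SimpleGraph V) (M : Type) [AddCommGroup M]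
  [Module ℝ M] (N : V → Submodule ℝ M) (i : ℕ), Dis G univ N → (∀ v w, G.Adj v w → N v ⊔ N w = ⊤) →
  HomZero G Set.univ i → (∀ v, N v = ⊤ ∨ HomZero G {w | G.Adj v w} i) → Ex G univ N i

/-- the subgroup of `W (oct G)` generated by the generators over the vertices in `P` -/
def Dih {V : Type} [Fintype V] [LinearOrder V] (G : SimpleGraph V) (P : Finset V) : Subgroup (W (oct G)) :=
  Subgroup.closure ((cox (oct G)).simple '' {p | fs p ∈ P})

/-- (TOP, 120 lines) Let `N = cup (NN sp) P`, the sum of the `NN sp v`, `v ∈ P` (`NN`, `anti`, `mem_anti`, `anti_le` in `Oct.lean`, `MM`, `sp`,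
`sp_apply`, `sp_inv` in `Coef.lean`). (1) For `g ∈ Dih G P` and `f : MM K u`: the right translate `R_g f : x ↦ f (x g)` is in `MM K u` and `f - R_g f ∈ N`
(`Subgroup.closure_induction`; for a generator `s` over `v ∈ P`: `f - sp s f` is antiinvariant, so in `anti sp s ≤ NN sp v`). (2) For `x : W`, `r : R` let
`δ x r` be the function `k x ↦ r * u k⁻¹` (`k ∈ K`), zero off `K x`; it is in `MM K u`. (`InM K u univ ⊥`: `f (h w) = f w * u h⁻¹`, support finite modulo `K`.) If
`h ∈ Dih G P`, `h ≠ 1`, `k₀ = x h x⁻¹ ∈ K`, then `R_h (δ x r) = δ x (r * u k₀⁻¹)`, so `δ x (r * (1 - u k₀⁻¹)) ∈ N`, and `1 - u k₀⁻¹` is a unit (`Rg.inv`): all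
`δ x r ∈ N`. (3) Every `f : MM K u` with support in `K S`, `S` finite, is in `N`: induction on `S`, subtract `δ x (f x)`. -/
def S_TOP : Prop := ∀ (V : Type) [Fintype V] [LinearOrder V] (G : SimpleGraph V) (R : Type) [Ring R] [Module ℝ R]
  [IsScalarTower ℝ R R] (K : Subgroup (W (oct G))) (u : K →* R), Rg K u → ∀ P : Finset V,
  (∀ x : W (oct G), ∃ h ∈ Dih G P, h ≠ 1 ∧ x * h * x⁻¹ ∈ K) →
  cup (NN (sp : V ×ₗ Bool → MM K u →ₗ[ℝ] MM K u)) P = ⊤

/-- (OBS, 100 lines) As `homZero_act` (`Pool/Agent/V5helper74/LR/Act.lean`) with `A = {w | G.Adj v w}`: the graph is `oct (G.induce A)`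
(`¬ Obs (oct (G.induce A)) (2 * i)` from `ex2_of_obs`, `ex2_sub`, `homZero_of_ex2` as there), with the elements `t (w, true) = k w`, `t (w, false) = (k w)⁻¹`, where
`μ (k w) = g * (art G w ^ a * art G v ^ b) * g⁻¹`, `a = a w ≠ 0`; they commute for adjacent `w`, `w'` (`v` commutes with both, `art_comm`; `μ` is injective).
Detection `Dt`: for `u = (w, δ)` let `ρ` be the homomorphism `μ` followed by `Raag G →* Equiv.Perm ℤ`, `art G w ↦ tr 1` or `tr (-1)` (so that
`ρ (t u) = tr |a|`), all other generators to `1` (the image is commutative, so the conjugation by `g` does not matter), `ε (w, δ) = |a|`, `ε (w, !δ) = -|a|`, `ε = 0` for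
the other vertices; `(w, !δ) ∉ U` as `U` is a clique, `(w, δ) ∉ U'` as `U`, `U'` are disjoint. -/
def S_OBS : Prop := ∀ (V : Type) [Fintype V] [LinearOrder V] (G : SimpleGraph V) (F : Type) [Group F] (μ : F →* Raag G)
  (v : V) (g : Raag G) (i : ℕ), Function.Injective μ →
  (∀ w, G.Adj v w → ∃ a b : ℤ, a ≠ 0 ∧ g * (art G w ^ a * art G v ^ b) * g⁻¹ ∈ μ.range) →
  ¬ HomZero G {w | G.Adj v w} i → Fl F i

/-- (DJ, 40 new lines) Copy of `dj` (`Pool/Agent/V5helper75/BR/Dj.lean`, can be imported for the lemmas) with one more conclusion. There `f = inl`, `p = ψ`,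
`ψ (gen (v, ε)) = ⟨art v ^ eb ε, rf v⟩` in `Raag G ⋊[φ] (V → ℤˣ)`, `φ σ (art v) = art v ^ σ v`; so `ψ (gen (v, true) gen (v, false)) = inl (art v ^ 2)`; write
`ψ x = inl g * inr σ`, then `ψ x * inl (art v ^ 2) * (ψ x)⁻¹ = inl (g * art v ^ (2 * σ v) * g⁻¹)`. -/
def S_DJ : Prop := ∀ (V : Type) [Fintype V] [LinearOrder V] (G : SimpleGraph V), ∃ (E : Type) (_ : Group E)
  (f : Raag G →* E) (p : W (oct G) →* E), Function.Injective f ∧ Function.Injective p ∧ f.range.FiniteIndex ∧
  p.range.FiniteIndex ∧ ∀ x : W (oct G), ∃ (g : Raag G) (ε : V → ℤˣ), ∀ v,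
    p (x * (gen (oct G) (toLex (v, true)) * gen (oct G) (toLex (v, false))) * x⁻¹) =
      f (g * art G v ^ (2 * (ε v : ℤ)) * g⁻¹)

end Pool.Agent.V5helper75.BB
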